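import Pool.Agent.H49.AB.Count
import Pool.Agent.H49.AB.Inst
import Pool.Agent.H67.Tent.Total

/-!
# Almost all points of `(1/N) ℤ[α]` in `[0, 1]` come down to bounded height
-/

set_option autoImplicit false

namespace Pool.Agent.Results.MP_df7698_an.AlmostAllBounded

open ComplexConjugate Pool.Agent.H67.Tent Pool.Agent.H49.AB

/-- The asymmetric tent map. -/
noncomputable def tent (α y : ℝ) : ℝ := if y ≤ 1 / α then α * y else α / (α - 1) * (1 - y)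

/-- `x ∈ (1/N) ℤ[α]`, and all conjugates of `x` have absolute value at most `H`. -/
def HeightLE (α : ℝ) (N : ℕ) (H x : ℝ) : Prop :=
  ∃ c : Fin 5 → ℤ, (N : ℝ) * x = ∑ i, (c i : ℝ) * α ^ (i : ℕ) ∧
    ∀ z : ℂ, z ^ 5 - z ^ 3 - 1 = 0 → ‖∑ i, (c i : ℂ) * z ^ (i : ℕ)‖ ≤ N * H

theorem fin_of_finset {P : Set ℝ} {B : ℝ}
    (h : ∀ F : Finset ℝ, (∀ x ∈ F, x ∈ P) → (F.card : ℝ) ≤ B) :
    P.Finite ∧ (P.ncard : ℝ) ≤ B := by
  have hfin : P.Finite := by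
    by_contra hinf
    obtain ⟨t, ht, hc⟩ := Set.Infinite.exists_subset_card_eq (show P.Infinite from hinf)
      (⌊B⌋₊ + 1)
    have := h t (fun x hx => ht hx)
    rw [hc] at this
    have h2 := Nat.lt_floor_add_one B
    push_cast at this
    linarith
  refine ⟨hfin, ?_⟩
  rw [Set.ncard_eq_toFinset_card P hfin]
  exact h _ (fun x hx => by simpa using hx)

theorem conj_sum (c : Fin 5 → ℤ) (z : ℂ) :
    ∑ i, (c i : ℂ) * (conj z) ^ (i : ℕ) = conj (∑ i, (c i : ℂ) * z ^ (i : ℕ)) := by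
  rw [map_sum]
  refine Finset.sum_congr rfl fun i _ => ?_
  rw [map_mul, map_pow, map_intCast]

section

variable {α : ℝ} {S : Sys}

/-- The properties of the system attached to `α`. -/
structure Good (α : ℝ) (S : Sys) : Prop where
  a1 : S.a.1 = α
  b1 : S.b.1 = α / (α - 1)
  lam : ∀ z : E, z ∈ S.Lam ↔ ∃ c : Fin 5 → ℤ, z = (∑ i, (c i : ℝ) * α ^ (i : ℕ),
      ∑ i, (c i : ℂ) * S.a.2.1 ^ (i : ℕ), ∑ i, (c i : ℂ) * S.a.2.2 ^ (i : ℕ))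
  root : ∀ z : ℂ, z ^ 5 - z ^ 3 - 1 = 0 ↔
      z = α ∨ z = S.a.2.1 ∨ z = conj S.a.2.1 ∨ z = S.a.2.2 ∨ z = conj S.a.2.2
  inj : ∀ c : Fin 5 → ℤ, ∑ i, (c i : ℝ) * α ^ (i : ℕ) = 0 → c = 0

theorem rep (hS : Good α S) {N : ℕ} {H x : ℝ} (hx : x ∈ Set.Icc (0 : ℝ) 1)
    (h : HeightLE α N H x) :
    ∃ z : E, G S N z ∧ z.1 = N * x ∧ ‖z.2.1‖ ≤ N * H ∧ ‖z.2.2‖ ≤ N * H := by
  obtain ⟨c, hc, hr⟩ := h
  refine ⟨(∑ i, (c i : ℝ) * α ^ (i : ℕ), ∑ i, (c i : ℂ) * S.a.2.1 ^ (i : ℕ),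
    ∑ i, (c i : ℂ) * S.a.2.2 ^ (i : ℕ)), ⟨(hS.lam _).2 ⟨c, rfl⟩, ?_, ?_⟩, hc.symm, ?_, ?_⟩
  · show 0 ≤ ∑ i, (c i : ℝ) * α ^ (i : ℕ)
    rw [← hc]
    exact mul_nonneg (Nat.cast_nonneg N) hx.1
  · show ∑ i, (c i : ℝ) * α ^ (i : ℕ) ≤ N
    rw [← hc]
    exact mul_le_of_le_one_right (Nat.cast_nonneg N) hx.2
  · exact hr _ ((hS.root _).2 (Or.inr (Or.inl rfl)))
  · exact hr _ ((hS.root _).2 (Or.inr (Or.inr (Or.inr (Or.inl rfl)))))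

theorem height_of (hS : Good α S) {N : ℕ} {r x : ℝ} {z : E} (hz : z ∈ S.Lam)
    (h1 : z.1 = N * x) (ha : |z.1| ≤ N * r) (hb : ‖z.2.1‖ ≤ N * r) (hc : ‖z.2.2‖ ≤ N * r) :
    HeightLE α N r x := by
  obtain ⟨c, rfl⟩ := (hS.lam z).1 hz
  refine ⟨c, h1.symm, fun y hy => ?_⟩
  rcases (hS.root y).1 hy with rfl | rfl | rfl | rfl | rfl
  · have : ∑ i, (c i : ℂ) * (α : ℂ) ^ (i : ℕ) = ((∑ i, (c i : ℝ) * α ^ (i : ℕ) : ℝ) : ℂ) := by
      push_cast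
      rfl
    rw [this, Complex.norm_real]
    exact ha
  · exact hb
  · rw [conj_sum, Complex.norm_conj]
    exact hb
  · exact hc
  · rw [conj_sum, Complex.norm_conj]
    exact hc

theorem semi (hS : Good α S) {N : ℕ} (hN : 1 ≤ N) {x : ℝ} {z : E} (h1 : z.1 = N * x) :
    (T S N z).1 = N * tent α x := by
  have hN' : (0 : ℝ) < N := by exact_mod_cast hN
  have ha := a1_pos S
  rw [hS.a1] at ha
  unfold T tent
  rw [hS.a1, h1]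
  by_cases h : x ≤ 1 / α
  · rw [if_pos h, if_pos]
    · rw [Prod.fst_mul, h1, hS.a1]
      ring
    · rw [div_eq_mul_one_div]
      exact mul_le_mul_of_nonneg_left h hN'.le
  · rw [if_neg h, if_neg]
    · rw [Prod.fst_mul, Prod.fst_sub, h1, hS.b1]
      show α / (α - 1) * ((N : ℝ) - N * x) = _
      ring
    · rw [div_eq_mul_one_div]
      intro h2
      exact h (le_of_mul_le_mul_left h2 hN')

theorem semi_iter (hS : Good α S) {N : ℕ} (hN : 1 ≤ N) (n : ℕ) {x : ℝ} {z : E}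
    (h1 : z.1 = N * x) : ((T S N)^[n] z).1 = N * (tent α)^[n] x := by
  induction n generalizing x z with
  | zero => simpa using h1
  | succ n ih =>
    rw [Function.iterate_succ_apply, Function.iterate_succ_apply]
    exact ih (semi hS hN h1)

/-- Transfer of a counting bound. -/
theorem transfer (hS : Good α S) {N : ℕ} (hN : 1 ≤ N) {R B : ℝ} {P : Set ℝ} {Q : E → Prop}
    (hP : ∀ x ∈ P, x ∈ Set.Icc (0 : ℝ) 1 ∧ HeightLE α N R x)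
    (hQ : ∀ x ∈ P, ∀ z : E, G S N z → z.1 = N * x → ‖z.2.1‖ ≤ N * R → ‖z.2.2‖ ≤ N * R → Q z)
    (hB : ∀ X : Finset E, (∀ z ∈ X, G S N z ∧ ‖z.2.1‖ ≤ N * R ∧ ‖z.2.2‖ ≤ N * R ∧ Q z) →
      (X.card : ℝ) ≤ B) :
    P.Finite ∧ (P.ncard : ℝ) ≤ B := by
  classical
  have hN' : (0 : ℝ) < N := by exact_mod_cast hN
  apply fin_of_finset
  intro F hF
  have hex : ∀ x ∈ P, ∃ z : E, G S N z ∧ z.1 = N * x ∧ ‖z.2.1‖ ≤ N * R ∧ ‖z.2.2‖ ≤ N * R :=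
    fun x hx => rep hS (hP x hx).1 (hP x hx).2
  choose! f hf using hex
  have hinj : Set.InjOn f (F : Set ℝ) := by
    intro x hx y hy h
    have h1 := (hf x (hF x hx)).2.1
    have h2 := (hf y (hF y hy)).2.1
    rw [h, h2] at h1
    exact (mul_left_cancel₀ hN'.ne' h1).symm
  rw [← Finset.card_image_of_injOn hinj]
  apply hB
  intro z hz
  obtain ⟨x, hx, rfl⟩ := Finset.mem_image.1 hz
  obtain ⟨h1, h2, h3, h4⟩ := hf x (hF x hx)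
  exact ⟨h1, h3, h4, hQ x (hF x hx) _ h1 h2 h3 h4⟩

/-- Upper bound for the number of points whose orbit stays high for a time `102 log (N H)`. -/
theorem upper {S : Sys2} (hS : Good α S.toSys) (N : ℕ) (hN : 1 ≤ N) (A : ℕ) : ∃ C : ℝ, 1 ≤ C ∧
    ∀ H M : ℝ, 2 ≤ H → 2 ≤ M →
      {x : ℝ | x ∈ Set.Icc (0 : ℝ) 1 ∧ HeightLE α N H x}.Finite ∧
      ({x : ℝ | x ∈ Set.Icc (0 : ℝ) 1 ∧ HeightLE α N H x ∧
        ∀ n : ℕ, (n : ℝ) ≤ 102 * Real.log (N * H) →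
          ¬ HeightLE α N M ((tent α)^[n] x)}.ncard : ℝ) ≤ C * H ^ 4 / (Real.log M) ^ A := by
  obtain ⟨C, hC, hcount⟩ := count_bound S N hN A
  have hN' : (1 : ℝ) ≤ N := by exact_mod_cast hN
  have hN0 : (0 : ℝ) < N := by linarith
  have htriv : ∀ R : ℝ, 2 ≤ R → ∀ X : Finset E,
      (∀ z ∈ X, G S.toSys N z ∧ ‖z.2.1‖ ≤ N * R ∧ ‖z.2.2‖ ≤ N * R) →
      (X.card : ℝ) ≤ (128 * N ^ 5 + 18) * R ^ 4 := by
    intro R hR X hX
    have h1 := count_box S.toSys X 0 N (N * R) (N * R) 0 0 hN0 (by positivity) (by positivity)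
      (fun z hz => ⟨(hX z hz).1.1, (hX z hz).1.2.1, by simpa using (hX z hz).1.2.2,
        by simpa using (hX z hz).2.1, by simpa using (hX z hz).2.2⟩)
    have h2 : (1 : ℝ) ≤ R ^ 4 := one_le_pow₀ (by linarith)
    calc (X.card : ℝ) ≤ 128 * N * (N * R) ^ 2 * (N * R) ^ 2 + 18 := h1
      _ = 128 * N ^ 5 * R ^ 4 + 18 * 1 := by ring
      _ ≤ 128 * N ^ 5 * R ^ 4 + 18 * R ^ 4 := by gcongr
      _ = _ := by ring
  refine ⟨C, hC, fun H M hH hM => ⟨?_, ?_⟩⟩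
  · exact (transfer (Q := fun _ => True) hS hN (fun x hx => hx) (fun _ _ _ _ _ _ _ => trivial)
      (fun X hX => htriv H hH X (fun z hz => ⟨(hX z hz).1, (hX z hz).2.1, (hX z hz).2.2.1⟩))).1
  · refine (transfer (Q := fun z => ∀ n : ℕ, (n : ℝ) ≤ 102 * Real.log (N * H) →
      ¬ (‖((T S.toSys N)^[n] z).2.1‖ ≤ N * M ∧ ‖((T S.toSys N)^[n] z).2.2‖ ≤ N * M))
      hS hN (fun x hx => ⟨hx.1, hx.2.1⟩) ?_ ?_).2
    · rintro x ⟨hx, hxR, hn⟩ z hG hz1 _ _ n hnle ⟨hc1, hc2⟩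
      have hGt := G_iter S.toSys N hG n
      apply hn n hnle
      refine height_of hS hGt.1 (semi_iter hS hN n hz1) ?_ hc1 hc2
      rw [abs_of_nonneg hGt.2.1]
      exact hGt.2.2.trans (by nlinarith)
    · intro X hX
      exact hcount H M hH hM X fun z hz => ⟨(hX z hz).1, (hX z hz).2.1, (hX z hz).2.2.1,
        (hX z hz).2.2.2⟩

theorem lower (hα : α ^ 5 - α ^ 3 - 1 = 0) (hS : Good α S) (N : ℕ) (hN : 1 ≤ N) :
    ∃ C : ℝ, 0 < C ∧ ∀ R : ℝ, 2 ≤ R →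
      {x : ℝ | x ∈ Set.Icc (0 : ℝ) 1 ∧ HeightLE α N R x}.Finite →
      R ^ 4 / C ≤ ({x : ℝ | x ∈ Set.Icc (0 : ℝ) 1 ∧ HeightLE α N R x}.ncard : ℝ) := by
  classical
  obtain ⟨C, hC, htot⟩ := total α hα
  have hN' : (1 : ℝ) ≤ N := by exact_mod_cast hN
  have hN0 : (0 : ℝ) < N := by linarith
  refine ⟨C, hC, fun R hR hfin => ?_⟩
  obtain ⟨X, hX, hXc⟩ := htot R (by linarith)
  refine hX.trans ?_
  have hinj : Set.InjOn (fun c : Fin 5 → ℤ => (∑ i, (c i : ℝ) * α ^ (i : ℕ)) / N) (X : Set _) := by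
    intro c _ c' _ h
    simp only at h
    rw [div_left_inj' hN0.ne'] at h
    have h1 : ∑ i, ((c - c') i : ℝ) * α ^ (i : ℕ) = 0 := by
      have : ∀ i, (((c - c') i : ℤ) : ℝ) * α ^ (i : ℕ) = (c i : ℝ) * α ^ (i : ℕ) -
          (c' i : ℝ) * α ^ (i : ℕ) := by
        intro i
        rw [Pi.sub_apply]
        push_cast
        ring
      rw [Finset.sum_congr rfl (fun i _ => this i), Finset.sum_sub_distrib, h, sub_self]
    exact sub_eq_zero.1 (hS.inj _ h1)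
  rw [← Finset.card_image_of_injOn hinj, ← Set.ncard_coe_finset, Nat.cast_le]
  refine Set.ncard_le_ncard ?_ hfin
  intro x hx
  rw [Finset.mem_coe, Finset.mem_image] at hx
  obtain ⟨c, hc, rfl⟩ := hx
  obtain ⟨h1, h2, h3⟩ := hXc c hc
  refine ⟨⟨div_nonneg h1 hN0.le, ?_⟩, c, ?_, fun z hz => (h3 z hz).trans ?_⟩
  · rw [div_le_one hN0]
    linarith
  · rw [mul_div_cancel₀ _ hN0.ne']
  · nlinarith

end

/-- Let `α` be the real root of `x⁵ - x³ - 1` and `N ≥ 1`. There are at least `H⁴/C` points of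
`(1/N) ℤ[α]` in `[0, 1]` of height at most `H`, finitely many, and for every `A` at most
`C (log M)^(-A) H⁴` of them have no iterate `T^n x`, `n ≤ 102 log (N H)`, of height at most `M`. -/
theorem result (α : ℝ) (hα : α ^ 5 - α ^ 3 - 1 = 0) (N : ℕ) (hN : 1 ≤ N) :
    (∃ C : ℝ, 0 < C ∧ ∀ H : ℝ, 2 ≤ H →
      {x : ℝ | x ∈ Set.Icc (0 : ℝ) 1 ∧ HeightLE α N H x}.Finite ∧
      H ^ 4 / C ≤ ({x : ℝ | x ∈ Set.Icc (0 : ℝ) 1 ∧ HeightLE α N H x}.ncard : ℝ)) ∧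
    (∀ A : ℕ, ∃ C : ℝ, 0 < C ∧ ∀ H M : ℝ, 2 ≤ H → 2 ≤ M →
      ({x : ℝ | x ∈ Set.Icc (0 : ℝ) 1 ∧ HeightLE α N H x ∧
        ∀ n : ℕ, (n : ℝ) ≤ 102 * Real.log (N * H) →
          ¬ HeightLE α N M ((tent α)^[n] x)}.ncard : ℝ) ≤ C * H ^ 4 / (Real.log M) ^ A) := by
  obtain ⟨S, h1, h2, h3, h4, h5⟩ := exists_sys2 α hα
  have hS : Good α S.toSys := ⟨h1, h2, h3, h4, h5⟩
  refine ⟨?_, fun A => ?_⟩
  · obtain ⟨C, hC, hlow⟩ := lower hα hS N hN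
    obtain ⟨C', -, hup⟩ := upper hS N hN 0
    exact ⟨C, hC, fun H hH => ⟨(hup H 2 hH le_rfl).1, hlow H hH (hup H 2 hH le_rfl).1⟩⟩
  · obtain ⟨C, hC, hup⟩ := upper hS N hN A
    exact ⟨C, by linarith, fun H M hH hM => (hup H M hH hM).2⟩

end Pool.Agent.Results.MP_df7698_an.AlmostAllBounded
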