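import Pool.Agent.H67.Tent.Comb
import Pool.Agent.H67.Tent.Inst
import Pool.Agent.H67.Tent.Total

/-!
# Almost all points of `(1/N) ℤ[α]` in `[0, 1]` descend to polylogarithmic height
-/

set_option autoImplicit false

namespace Pool.Agent.Results.MP_df7698_an.AlmostAllDescend

open ComplexConjugate Pool.Agent.H67.Tent

/-- The asymmetric tent map. -/
noncomputable def tent (α y : ℝ) : ℝ := if y ≤ 1 / α then α * y else α / (α - 1) * (1 - y)

/-- `x ∈ (1/N) ℤ[α]`, and all conjugates of `x` have absolute value at most `H`. -/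
def HeightLE (α : ℝ) (N : ℕ) (H x : ℝ) : Prop :=
  ∃ c : Fin 5 → ℤ, (N : ℝ) * x = ∑ i, (c i : ℝ) * α ^ (i : ℕ) ∧
    ∀ z : ℂ, z ^ 5 - z ^ 3 - 1 = 0 → ‖∑ i, (c i : ℂ) * z ^ (i : ℕ)‖ ≤ N * H

theorem fin_of_finset {P : Set ℝ} {B : ℝ}
    (h : ∀ F : Finset ℝ, (∀ x ∈ F, x ∈ P) → (F.card : ℝ) ≤ B) :
    P.Finite ∧ (P.ncard : ℝ) ≤ B := by
  have hfin : P.Finite := by
    by_contra hinf
    obtain ⟨t, ht, hc⟩ := Set.Infinite.exists_subset_card_eq (show P.Infinite from hinf)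
      (⌊B⌋₊ + 1)
    have := h t (fun x hx => ht hx)
    rw [hc] at this
    have h2 := Nat.lt_floor_add_one B
    push_cast at this
    linarith
  refine ⟨hfin, ?_⟩
  rw [Set.ncard_eq_toFinset_card P hfin]
  exact h _ (fun x hx => by simpa using hx)

theorem conj_sum (c : Fin 5 → ℤ) (z : ℂ) :
    ∑ i, (c i : ℂ) * (conj z) ^ (i : ℕ) = conj (∑ i, (c i : ℂ) * z ^ (i : ℕ)) := by
  rw [map_sum]
  refine Finset.sum_congr rfl fun i _ => ?_
  rw [map_mul, map_pow, map_intCast]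

section

variable {α : ℝ} {S : Sys}

/-- The properties of the system attached to `α`. -/
structure Good (α : ℝ) (S : Sys) : Prop where
  a1 : S.a.1 = α
  b1 : S.b.1 = α / (α - 1)
  lam : ∀ z : E, z ∈ S.Lam ↔ ∃ c : Fin 5 → ℤ, z = (∑ i, (c i : ℝ) * α ^ (i : ℕ),
      ∑ i, (c i : ℂ) * S.a.2.1 ^ (i : ℕ), ∑ i, (c i : ℂ) * S.a.2.2 ^ (i : ℕ))
  root : ∀ z : ℂ, z ^ 5 - z ^ 3 - 1 = 0 ↔
      z = α ∨ z = S.a.2.1 ∨ z = conj S.a.2.1 ∨ z = S.a.2.2 ∨ z = conj S.a.2.2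
  inj : ∀ c : Fin 5 → ℤ, ∑ i, (c i : ℝ) * α ^ (i : ℕ) = 0 → c = 0

theorem rep (hS : Good α S) {N : ℕ} {H x : ℝ} (hx : x ∈ Set.Icc (0 : ℝ) 1)
    (h : HeightLE α N H x) :
    ∃ z : E, G S N z ∧ z.1 = N * x ∧ ‖z.2.1‖ ≤ N * H ∧ ‖z.2.2‖ ≤ N * H := by
  obtain ⟨c, hc, hr⟩ := h
  refine ⟨(∑ i, (c i : ℝ) * α ^ (i : ℕ), ∑ i, (c i : ℂ) * S.a.2.1 ^ (i : ℕ),
    ∑ i, (c i : ℂ) * S.a.2.2 ^ (i : ℕ)), ⟨(hS.lam _).2 ⟨c, rfl⟩, ?_, ?_⟩, hc.symm, ?_, ?_⟩
  · show 0 ≤ ∑ i, (c i : ℝ) * α ^ (i : ℕ)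
    rw [← hc]
    exact mul_nonneg (Nat.cast_nonneg N) hx.1
  · show ∑ i, (c i : ℝ) * α ^ (i : ℕ) ≤ N
    rw [← hc]
    exact mul_le_of_le_one_right (Nat.cast_nonneg N) hx.2
  · exact hr _ ((hS.root _).2 (Or.inr (Or.inl rfl)))
  · exact hr _ ((hS.root _).2 (Or.inr (Or.inr (Or.inr (Or.inl rfl)))))

theorem height_of (hS : Good α S) {N : ℕ} {r x : ℝ} {z : E} (hz : z ∈ S.Lam)
    (h1 : z.1 = N * x) (ha : |z.1| ≤ N * r) (hb : ‖z.2.1‖ ≤ N * r) (hc : ‖z.2.2‖ ≤ N * r) :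
    HeightLE α N r x := by
  obtain ⟨c, rfl⟩ := (hS.lam z).1 hz
  refine ⟨c, h1.symm, fun y hy => ?_⟩
  rcases (hS.root y).1 hy with rfl | rfl | rfl | rfl | rfl
  · have : ∑ i, (c i : ℂ) * (α : ℂ) ^ (i : ℕ) = ((∑ i, (c i : ℝ) * α ^ (i : ℕ) : ℝ) : ℂ) := by
      push_cast
      rfl
    rw [this, Complex.norm_real]
    exact ha
  · exact hb
  · rw [conj_sum, Complex.norm_conj]
    exact hb
  · exact hc
  · rw [conj_sum, Complex.norm_conj]
    exact hc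

theorem semi (hS : Good α S) {N : ℕ} (hN : 1 ≤ N) {x : ℝ} {z : E} (h1 : z.1 = N * x) :
    (T S N z).1 = N * tent α x := by
  have hN' : (0 : ℝ) < N := by exact_mod_cast hN
  have ha := a1_pos S
  rw [hS.a1] at ha
  unfold T tent
  rw [hS.a1, h1]
  by_cases h : x ≤ 1 / α
  · rw [if_pos h, if_pos]
    · rw [Prod.fst_mul, h1, hS.a1]
      ring
    · rw [div_eq_mul_one_div]
      exact mul_le_mul_of_nonneg_left h hN'.le
  · rw [if_neg h, if_neg]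
    · rw [Prod.fst_mul, Prod.fst_sub, h1, hS.b1]
      show α / (α - 1) * ((N : ℝ) - N * x) = _
      ring
    · rw [div_eq_mul_one_div]
      intro h2
      exact h (le_of_mul_le_mul_left h2 hN')

theorem semi_iter (hS : Good α S) {N : ℕ} (hN : 1 ≤ N) (n : ℕ) {x : ℝ} {z : E}
    (h1 : z.1 = N * x) : ((T S N)^[n] z).1 = N * (tent α)^[n] x := by
  induction n generalizing x z with
  | zero => simpa using h1
  | succ n ih =>
    rw [Function.iterate_succ_apply, Function.iterate_succ_apply]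
    exact ih (semi hS hN h1)

/-- Transfer of a counting bound. -/
theorem transfer (hS : Good α S) {N : ℕ} (hN : 1 ≤ N) {R B : ℝ} {P : Set ℝ} {Q : E → Prop}
    (hP : ∀ x ∈ P, x ∈ Set.Icc (0 : ℝ) 1 ∧ HeightLE α N R x)
    (hQ : ∀ x ∈ P, ∀ z : E, G S N z → z.1 = N * x → ‖z.2.1‖ ≤ N * R → ‖z.2.2‖ ≤ N * R → Q z)
    (hB : ∀ X : Finset E, (∀ z ∈ X, G S N z ∧ ‖z.2.1‖ ≤ N * R ∧ ‖z.2.2‖ ≤ N * R ∧ Q z) →
      (X.card : ℝ) ≤ B) :
    P.Finite ∧ (P.ncard : ℝ) ≤ B := by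
  classical
  have hN' : (0 : ℝ) < N := by exact_mod_cast hN
  apply fin_of_finset
  intro F hF
  have hex : ∀ x ∈ P, ∃ z : E, G S N z ∧ z.1 = N * x ∧ ‖z.2.1‖ ≤ N * R ∧ ‖z.2.2‖ ≤ N * R :=
    fun x hx => rep hS (hP x hx).1 (hP x hx).2
  choose! f hf using hex
  have hinj : Set.InjOn f (F : Set ℝ) := by
    intro x hx y hy h
    have h1 := (hf x (hF x hx)).2.1
    have h2 := (hf y (hF y hy)).2.1
    rw [h, h2] at h1
    exact (mul_left_cancel₀ hN'.ne' h1).symm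
  rw [← Finset.card_image_of_injOn hinj]
  apply hB
  intro z hz
  obtain ⟨x, hx, rfl⟩ := Finset.mem_image.1 hz
  obtain ⟨h1, h2, h3, h4⟩ := hf x (hF x hx)
  exact ⟨h1, h3, h4, hQ x (hF x hx) _ h1 h2 h3 h4⟩

theorem upper (hS : Good α S) (N : ℕ) (hN : 1 ≤ N) : ∃ C : ℝ, 1 ≤ C ∧ ∀ R : ℝ, 2 ≤ R →
    ({x : ℝ | x ∈ Set.Icc (0 : ℝ) 1 ∧ HeightLE α N R x}.Finite ∧
      ∀ r : ℝ, 1 ≤ r →
        ({x : ℝ | x ∈ Set.Icc (0 : ℝ) 1 ∧ HeightLE α N R x ∧
          ∀ n : ℕ, ¬ HeightLE α N r ((tent α)^[n] x)}.ncard : ℝ) ≤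
          C * (Real.log R) ^ 8 * r ^ (-(1 / 2500) : ℝ) * R ^ 4) := by
  obtain ⟨C0, hC0, hcomb⟩ := comb S N hN
  have hN' : (1 : ℝ) ≤ N := by exact_mod_cast hN
  have hN0 : (0 : ℝ) < N := by linarith
  have htriv : ∀ R : ℝ, 2 ≤ R → ∀ X : Finset E,
      (∀ z ∈ X, G S N z ∧ ‖z.2.1‖ ≤ N * R ∧ ‖z.2.2‖ ≤ N * R) →
      (X.card : ℝ) ≤ (128 * N ^ 5 + 18) * R ^ 4 := by
    intro R hR X hX
    have h1 := count_box S X 0 N (N * R) (N * R) 0 0 hN0 (by positivity) (by positivity)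
      (fun z hz => ⟨(hX z hz).1.1, (hX z hz).1.2.1, by simpa using (hX z hz).1.2.2,
        by simpa using (hX z hz).2.1, by simpa using (hX z hz).2.2⟩)
    have h2 : (1 : ℝ) ≤ R ^ 4 := one_le_pow₀ (by linarith)
    calc (X.card : ℝ) ≤ 128 * N * (N * R) ^ 2 * (N * R) ^ 2 + 18 := h1
      _ = 128 * N ^ 5 * R ^ 4 + 18 * 1 := by ring
      _ ≤ 128 * N ^ 5 * R ^ 4 + 18 * R ^ 4 := by gcongr
      _ = _ := by ring
  set L := 1 + Real.log N / Real.log 2 with hL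
  have hlog2 : 0 < Real.log 2 := Real.log_pos (by norm_num)
  have hL1 : 1 ≤ L := by
    have : 0 ≤ Real.log N / Real.log 2 := div_nonneg (Real.log_nonneg hN') hlog2.le
    linarith
  have hlogN : ∀ R : ℝ, 2 ≤ R → Real.log (N * R) ≤ L * Real.log R := by
    intro R hR
    rw [Real.log_mul hN0.ne' (by linarith), hL, add_mul, one_mul, add_comm]
    have h1 : Real.log 2 ≤ Real.log R := Real.log_le_log (by norm_num) hR
    have h2 : Real.log N ≤ Real.log N / Real.log 2 * Real.log R := by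
      calc Real.log N = Real.log N / Real.log 2 * Real.log 2 := by field_simp
        _ ≤ _ := mul_le_mul_of_nonneg_left h1 (div_nonneg (Real.log_nonneg hN') hlog2.le)
    linarith
  set C := C0 * L ^ 8 * N ^ 4 + (128 * N ^ 5 + 18) * (2 ^ 8 * 7) with hC
  have hC1 : 1 ≤ C := by
    have h1 : 0 ≤ C0 * L ^ 8 * N ^ 4 := by positivity
    have h2 : (1 : ℝ) ≤ N ^ 5 := one_le_pow₀ hN'
    rw [hC]
    nlinarith
  refine ⟨C, hC1, fun R hR => ⟨?_, ?_⟩⟩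
  · exact (transfer (Q := fun _ => True) hS hN (fun x hx => hx) (fun _ _ _ _ _ _ _ => trivial)
      (fun X hX => htriv R hR X (fun z hz => ⟨(hX z hz).1, (hX z hz).2.1, (hX z hz).2.2.1⟩))).1
  · intro r hr
    have hlogR : (1 : ℝ) / 2 ≤ Real.log R := by
      have h1 : Real.log 2 ≤ Real.log R := Real.log_le_log (by norm_num) hR
      have h2 := Real.log_two_gt_d9
      linarith
    have hpos : 0 ≤ C * (Real.log R) ^ 8 * r ^ (-(1 / 2500) : ℝ) * R ^ 4 := by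
      have : 0 ≤ Real.log R := by linarith
      positivity
    rcases lt_or_ge r 7 with hr7 | hr7
    · -- trivial bound
      refine (transfer (Q := fun _ => True) hS hN (fun x hx => ⟨hx.1, hx.2.1⟩)
        (fun _ _ _ _ _ _ _ => trivial) (fun X hX => htriv R hR X
          (fun z hz => ⟨(hX z hz).1, (hX z hz).2.1, (hX z hz).2.2.1⟩))).2.trans ?_
      have h1 : (7 : ℝ)⁻¹ ≤ r ^ (-(1 / 2500) : ℝ) := by
        have h2 : r ^ (1 / 2500 : ℝ) ≤ 7 := by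
          calc r ^ (1 / 2500 : ℝ) ≤ r ^ (1 : ℝ) := Real.rpow_le_rpow_of_exponent_le hr (by norm_num)
            _ = r := Real.rpow_one r
            _ ≤ 7 := hr7.le
        rw [Real.rpow_neg (by linarith)]
        exact inv_anti₀ (Real.rpow_pos_of_pos (by linarith) _) h2
      have h3 : ((1 : ℝ) / 2) ^ 8 ≤ (Real.log R) ^ 8 := pow_le_pow_left₀ (by norm_num) hlogR 8
      have h4 : (1 : ℝ) ≤ 2 ^ 8 * 7 * ((Real.log R) ^ 8 * r ^ (-(1 / 2500) : ℝ)) := by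
        have h5 : ((1 : ℝ) / 2) ^ 8 * (7 : ℝ)⁻¹ ≤ (Real.log R) ^ 8 * r ^ (-(1 / 2500) : ℝ) :=
          mul_le_mul h3 h1 (by norm_num) (by positivity)
        calc (1 : ℝ) = 2 ^ 8 * 7 * (((1 : ℝ) / 2) ^ 8 * (7 : ℝ)⁻¹) := by norm_num
          _ ≤ _ := mul_le_mul_of_nonneg_left h5 (by norm_num)
      have h6 : 0 ≤ (Real.log R) ^ 8 * r ^ (-(1 / 2500) : ℝ) := by
        have := Real.rpow_nonneg (show (0 : ℝ) ≤ r by linarith) (-(1 / 2500) : ℝ)
        positivity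
      have h7 : 0 ≤ C0 * L ^ 8 * N ^ 4 := by positivity
      calc (128 * (N : ℝ) ^ 5 + 18) * R ^ 4 = (128 * (N : ℝ) ^ 5 + 18) * R ^ 4 * 1 := by ring
        _ ≤ (128 * (N : ℝ) ^ 5 + 18) * R ^ 4 *
            (2 ^ 8 * 7 * ((Real.log R) ^ 8 * r ^ (-(1 / 2500) : ℝ))) :=
          mul_le_mul_of_nonneg_left h4 (by positivity)
        _ = (128 * (N : ℝ) ^ 5 + 18) * (2 ^ 8 * 7) *
            ((Real.log R) ^ 8 * r ^ (-(1 / 2500) : ℝ) * R ^ 4) := by ring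
        _ ≤ C * ((Real.log R) ^ 8 * r ^ (-(1 / 2500) : ℝ) * R ^ 4) := by
          apply mul_le_mul_of_nonneg_right _ (by positivity)
          rw [hC]; linarith
        _ = _ := by ring
    · rcases le_or_gt r (N * R) with hrR | hrR
      · refine (transfer (Q := fun z => ∀ t, ‖((T S N)^[t] z).2.1‖ ≤ r →
          7 * N < ‖((T S N)^[t] z).2.2‖) (B := C0 * (Real.log (N * R)) ^ 8 *
            r ^ (-(1 / 2500) : ℝ) * (N * R) ^ 4) hS hN (fun x hx => ⟨hx.1, hx.2.1⟩) ?_ ?_).2.trans ?_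
        · rintro x ⟨hx, hxR, hn⟩ z hG hz1 _ _ t ht
          by_contra hcon
          push Not at hcon
          have hGt := G_iter S N hG t
          apply hn t
          refine height_of hS hGt.1 (semi_iter hS hN t hz1) ?_ ?_ ?_
          · rw [abs_of_nonneg hGt.2.1]
            exact hGt.2.2.trans (by nlinarith)
          · exact ht.trans (by nlinarith)
          · exact hcon.trans (by nlinarith)
        · intro X hX
          exact hcomb (N * R) r (by nlinarith) hr hrR X (fun z hz => ⟨(hX z hz).1, (hX z hz).2.1,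
            (hX z hz).2.2.1, (hX z hz).2.2.2⟩)
        · have h0 : 0 ≤ Real.log (N * R) := Real.log_nonneg (by nlinarith)
          have h1 : (Real.log (N * R)) ^ 8 ≤ (L * Real.log R) ^ 8 :=
            pow_le_pow_left₀ h0 (hlogN R hR) 8
          have h2 : 0 ≤ r ^ (-(1 / 2500) : ℝ) := Real.rpow_nonneg (by linarith) _
          calc C0 * (Real.log (N * R)) ^ 8 * r ^ (-(1 / 2500) : ℝ) * (N * R) ^ 4
              ≤ C0 * (L * Real.log R) ^ 8 * r ^ (-(1 / 2500) : ℝ) * (N * R) ^ 4 := by gcongr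
            _ = C0 * L ^ 8 * N ^ 4 * ((Real.log R) ^ 8 * r ^ (-(1 / 2500) : ℝ) * R ^ 4) := by ring
            _ ≤ C * ((Real.log R) ^ 8 * r ^ (-(1 / 2500) : ℝ) * R ^ 4) := by
              have h3 : 0 ≤ Real.log R := by linarith
              apply mul_le_mul_of_nonneg_right _ (by positivity)
              rw [hC]
              have : (0 : ℝ) ≤ (128 * N ^ 5 + 18) * (2 ^ 8 * 7) := by positivity
              linarith
            _ = _ := by ring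
      · have hempty : {x : ℝ | x ∈ Set.Icc (0 : ℝ) 1 ∧ HeightLE α N R x ∧
            ∀ n : ℕ, ¬ HeightLE α N r ((tent α)^[n] x)} = ∅ := by
          rw [Set.eq_empty_iff_forall_notMem]
          rintro x ⟨hx, ⟨c, hc, hcz⟩, hn⟩
          apply hn 0
          refine ⟨c, hc, fun z hz => (hcz z hz).trans ?_⟩
          have : R ≤ r := by nlinarith
          exact mul_le_mul_of_nonneg_left this hN0.le
        rw [hempty, Set.ncard_empty, Nat.cast_zero]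
        exact hpos

theorem lower (hα : α ^ 5 - α ^ 3 - 1 = 0) (hS : Good α S) (N : ℕ) (hN : 1 ≤ N) :
    ∃ C : ℝ, 0 < C ∧ ∀ R : ℝ, 2 ≤ R →
      {x : ℝ | x ∈ Set.Icc (0 : ℝ) 1 ∧ HeightLE α N R x}.Finite →
      R ^ 4 / C ≤ ({x : ℝ | x ∈ Set.Icc (0 : ℝ) 1 ∧ HeightLE α N R x}.ncard : ℝ) := by
  classical
  obtain ⟨C, hC, htot⟩ := total α hα
  have hN' : (1 : ℝ) ≤ N := by exact_mod_cast hN
  have hN0 : (0 : ℝ) < N := by linarith
  refine ⟨C, hC, fun R hR hfin => ?_⟩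
  obtain ⟨X, hX, hXc⟩ := htot R (by linarith)
  refine hX.trans ?_
  have hinj : Set.InjOn (fun c : Fin 5 → ℤ => (∑ i, (c i : ℝ) * α ^ (i : ℕ)) / N) (X : Set _) := by
    intro c _ c' _ h
    simp only at h
    rw [div_left_inj' hN0.ne'] at h
    have h1 : ∑ i, ((c - c') i : ℝ) * α ^ (i : ℕ) = 0 := by
      have : ∀ i, (((c - c') i : ℤ) : ℝ) * α ^ (i : ℕ) = (c i : ℝ) * α ^ (i : ℕ) -
          (c' i : ℝ) * α ^ (i : ℕ) := by
        intro i
        rw [Pi.sub_apply]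
        push_cast
        ring
      rw [Finset.sum_congr rfl (fun i _ => this i), Finset.sum_sub_distrib, h, sub_self]
    exact sub_eq_zero.1 (hS.inj _ h1)
  rw [← Finset.card_image_of_injOn hinj, ← Set.ncard_coe_finset, Nat.cast_le]
  refine Set.ncard_le_ncard ?_ hfin
  intro x hx
  rw [Finset.mem_coe, Finset.mem_image] at hx
  obtain ⟨c, hc, rfl⟩ := hx
  obtain ⟨h1, h2, h3⟩ := hXc c hc
  refine ⟨⟨div_nonneg h1 hN0.le, ?_⟩, c, ?_, fun z hz => (h3 z hz).trans ?_⟩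
  · rw [div_le_one hN0]
    linarith
  · rw [mul_div_cancel₀ _ hN0.ne']
  · nlinarith

end

theorem result (α : ℝ) (hα : α ^ 5 - α ^ 3 - 1 = 0) :
    ∃ κ : ℝ, 0 < κ ∧ ∀ N : ℕ, 1 ≤ N → ∃ C : ℝ, 0 < C ∧
      (∀ R : ℝ, 2 ≤ R →
        {x : ℝ | x ∈ Set.Icc (0 : ℝ) 1 ∧ HeightLE α N R x}.Finite ∧
        R ^ 4 / C ≤ ({x : ℝ | x ∈ Set.Icc (0 : ℝ) 1 ∧ HeightLE α N R x}.ncard : ℝ) ∧
        ∀ r : ℝ, 1 ≤ r →
          ({x : ℝ | x ∈ Set.Icc (0 : ℝ) 1 ∧ HeightLE α N R x ∧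
            ∀ n : ℕ, ¬ HeightLE α N r ((tent α)^[n] x)}.ncard : ℝ) ≤
            C * (Real.log R) ^ 8 * r ^ (-κ) * R ^ 4) ∧
      (∀ A : ℝ, ∃ B : ℝ, 0 < B ∧ ∀ R : ℝ, 3 ≤ R →
        ({x : ℝ | x ∈ Set.Icc (0 : ℝ) 1 ∧ HeightLE α N R x ∧
          ∀ n : ℕ, ¬ HeightLE α N ((Real.log R) ^ B) ((tent α)^[n] x)}.ncard : ℝ) ≤
        B * (Real.log R) ^ (-A) *
          ({x : ℝ | x ∈ Set.Icc (0 : ℝ) 1 ∧ HeightLE α N R x}.ncard : ℝ)) := by
  obtain ⟨S, h1, h2, h3, h4, h5⟩ := exists_sys α hα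
  have hS : Good α S := ⟨h1, h2, h3, h4, h5⟩
  refine ⟨1 / 2500, by norm_num, fun N hN => ?_⟩
  obtain ⟨C1, hC1, hup⟩ := upper hS N hN
  obtain ⟨C2, hC2, hlow⟩ := lower hα hS N hN
  have main : ∀ R : ℝ, 2 ≤ R →
        {x : ℝ | x ∈ Set.Icc (0 : ℝ) 1 ∧ HeightLE α N R x}.Finite ∧
        R ^ 4 / (max C1 C2) ≤ ({x : ℝ | x ∈ Set.Icc (0 : ℝ) 1 ∧ HeightLE α N R x}.ncard : ℝ) ∧
        ∀ r : ℝ, 1 ≤ r →
          ({x : ℝ | x ∈ Set.Icc (0 : ℝ) 1 ∧ HeightLE α N R x ∧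
            ∀ n : ℕ, ¬ HeightLE α N r ((tent α)^[n] x)}.ncard : ℝ) ≤
            (max C1 C2) * (Real.log R) ^ 8 * r ^ (-(1 / 2500) : ℝ) * R ^ 4 := by
    intro R hR
    refine ⟨(hup R hR).1, ?_, fun r hr => ((hup R hR).2 r hr).trans ?_⟩
    · refine le_trans ?_ (hlow R hR (hup R hR).1)
      exact div_le_div_of_nonneg_left (by positivity) hC2 (le_max_right _ _)
    · have hlog : 0 ≤ Real.log R := Real.log_nonneg (by linarith)
      have hr' : 0 ≤ r ^ (-(1 / 2500) : ℝ) := Real.rpow_nonneg (by linarith) _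
      gcongr
      exact le_max_left _ _
  refine ⟨max C1 C2, lt_of_lt_of_le hC2 (le_max_right _ _), main, fun A => ?_⟩
  set C := max C1 C2 with hC
  have hCpos : 0 < C := lt_of_lt_of_le hC2 (le_max_right _ _)
  set B := max (C * C) ((8 + A) * 2500) with hB
  have hBpos : 0 < B := lt_of_lt_of_le (by positivity) (le_max_left _ _)
  refine ⟨B, hBpos, fun R hR => ?_⟩
  obtain ⟨-, hlo, hup'⟩ := main R (by linarith)
  have hlog1 : 1 ≤ Real.log R := by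
    rw [Real.le_log_iff_exp_le (by linarith)]
    have := Real.exp_one_lt_d9
    linarith
  have hl0 : 0 < Real.log R := by linarith
  refine (hup' _ (Real.one_le_rpow hlog1 hBpos.le)).trans ?_
  have e1 : ((Real.log R) ^ B) ^ (-(1 / 2500) : ℝ) = (Real.log R) ^ (-(B / 2500)) := by
    rw [← Real.rpow_mul hl0.le]
    congr 1
    ring
  have e2 : (Real.log R) ^ 8 * (Real.log R) ^ (-(B / 2500)) ≤ (Real.log R) ^ (-A) := by
    rw [← Real.rpow_natCast, ← Real.rpow_add hl0]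
    apply Real.rpow_le_rpow_of_exponent_le hlog1
    have : (8 + A) * 2500 ≤ B := le_max_right _ _
    push_cast
    linarith
  have e3 : R ^ 4 ≤ C * ({x : ℝ | x ∈ Set.Icc (0 : ℝ) 1 ∧ HeightLE α N R x}.ncard : ℝ) := by
    rw [div_le_iff₀ hCpos] at hlo
    linarith
  have e4 : 0 ≤ (Real.log R) ^ (-A) := Real.rpow_nonneg hl0.le _
  rw [e1]
  calc C * (Real.log R) ^ 8 * (Real.log R) ^ (-(B / 2500)) * R ^ 4
      = C * ((Real.log R) ^ 8 * (Real.log R) ^ (-(B / 2500))) * R ^ 4 := by ring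
    _ ≤ C * (Real.log R) ^ (-A) *
        (C * ({x : ℝ | x ∈ Set.Icc (0 : ℝ) 1 ∧ HeightLE α N R x}.ncard : ℝ)) := by
      gcongr
    _ = (C * C) * (Real.log R) ^ (-A) *
        ({x : ℝ | x ∈ Set.Icc (0 : ℝ) 1 ∧ HeightLE α N R x}.ncard : ℝ) := by ring
    _ ≤ _ := by
      gcongr
      exact le_max_left _ _

end Pool.Agent.Results.MP_df7698_an.AlmostAllDescend
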