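import Pool.Agent.H5.TD.Fin
import Pool.Agent.H5.TD.Sum

/-!
# Natural densities of the invariant sets of the tent map

`α` is the real root of `x ^ 5 - x ^ 3 - 1`, `T` its tent map. The points of `(1/N) ℤ[α]` in `[0, 1]`
are ordered by height (largest absolute value of a conjugate). Every set which is invariant under
`T` (`T x ∈ U ↔ x ∈ U`) is equidistributed in `[0, 1]` with a natural density, uniformly, and the
natural density is completely additive on the invariant sets.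
-/

set_option autoImplicit false

namespace Pool.Agent.Results.MP_df7698_an.NaturalDensity

/-- The asymmetric tent map. -/
noncomputable def tent (α y : ℝ) : ℝ := if y ≤ 1 / α then α * y else α / (α - 1) * (1 - y)

/-- `x ∈ (1/N) ℤ[α]`, and all conjugates of `x` have absolute value at most `H`. -/
def HeightLE (α : ℝ) (N : ℕ) (H x : ℝ) : Prop :=
  ∃ c : Fin 5 → ℤ, (N : ℝ) * x = ∑ i, (c i : ℝ) * α ^ (i : ℕ) ∧
    ∀ z : ℂ, z ^ 5 - z ^ 3 - 1 = 0 → ‖∑ i, (c i : ℂ) * z ^ (i : ℕ)‖ ≤ N * H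

/-- Let `α` be the real root of `x⁵ - x³ - 1` and `N ≥ 1`. There is a function `d` such that, as
`H → ∞`, the proportion of the points `x` of `(1/N) ℤ[α] ∩ [0, 1]` of height at most `H` which lie
in `U` and in `[s, t]` tends to `(t - s) d(U)`, uniformly in all invariant sets `U` and all
`0 ≤ s ≤ t ≤ 1`; and `d` is additive for arbitrary families of disjoint invariant sets. -/
theorem result (α : ℝ) (hα : α ^ 5 - α ^ 3 - 1 = 0) (N : ℕ) (hN : 1 ≤ N) :
    ∃ d : Set ℝ → ℝ,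
      (∀ ε : ℝ, 0 < ε → ∃ H0 : ℝ, ∀ H : ℝ, H0 ≤ H →
        {x : ℝ | x ∈ Set.Icc (0 : ℝ) 1 ∧ HeightLE α N H x}.Finite ∧
        0 < {x : ℝ | x ∈ Set.Icc (0 : ℝ) 1 ∧ HeightLE α N H x}.ncard ∧
        ∀ U : Set ℝ, (∀ x ∈ Set.Icc (0 : ℝ) 1, (tent α x ∈ U ↔ x ∈ U)) →
          ∀ s t : ℝ, 0 ≤ s → s ≤ t → t ≤ 1 →
          |({x : ℝ | x ∈ Set.Icc (0 : ℝ) 1 ∧ HeightLE α N H x ∧ x ∈ U ∧ s ≤ x ∧
              x ≤ t}.ncard : ℝ) /
            ({x : ℝ | x ∈ Set.Icc (0 : ℝ) 1 ∧ HeightLE α N H x}.ncard : ℝ) -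
              (t - s) * d U| ≤ ε) ∧
      ∀ (ι : Type) (U : ι → Set ℝ),
        (∀ i, ∀ x ∈ Set.Icc (0 : ℝ) 1, (tent α x ∈ U i ↔ x ∈ U i)) →
        (∀ i j, i ≠ j → Disjoint (U i) (U j)) →
        HasSum (fun i => d (U i)) (d (⋃ i, U i)) := by
  obtain ⟨d, hd⟩ := Pool.Agent.H5.TD.dens_fin α hα N hN
  exact ⟨d, hd, fun ι U hU hdis => Pool.Agent.H5.TD.dens_sum α N d hd ι U hU hdis⟩

end Pool.Agent.Results.MP_df7698_an.NaturalDensity
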