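import Pool.Agent.H49.PP.Final

/-!
# A positive proportion of the points of `(1/N) ℤ[α] ∩ [0, 1]` is eventually periodic

`α` is the real root of `x ^ 5 - x ^ 3 - 1`. There is one periodic orbit which absorbs, for every
`N` divisible by a fixed `N₀`, a positive proportion of the points of `(1/N) ℤ[α]` in `[0, 1]`,
ordered by height.
-/

set_option autoImplicit false

namespace Pool.Agent.Results.MP_df7698_an.PositiveProportion

/-- The asymmetric tent map. -/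
noncomputable def tent (α y : ℝ) : ℝ := if y ≤ 1 / α then α * y else α / (α - 1) * (1 - y)

/-- `x ∈ (1/N) ℤ[α]`, and all conjugates of `x` have absolute value at most `H`. -/
def HeightLE (α : ℝ) (N : ℕ) (H x : ℝ) : Prop :=
  ∃ c : Fin 5 → ℤ, (N : ℝ) * x = ∑ i, (c i : ℝ) * α ^ (i : ℕ) ∧
    ∀ z : ℂ, z ^ 5 - z ^ 3 - 1 = 0 → ‖∑ i, (c i : ℂ) * z ^ (i : ℕ)‖ ≤ N * H

/-- There are `N₀ ≥ 1` and a point `y₀` of `(0, 1)`, periodic under the tent map, such that for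
every `N` divisible by `N₀` there is `δ > 0` for which, for all large `H`, at least the proportion
`δ` of the (finitely many) points `x` of `(1/N) ℤ[α] ∩ [0, 1]` of height at most `H` have an orbit
which contains `y₀`. -/
theorem result : ∀ α : ℝ, α ^ 5 - α ^ 3 - 1 = 0 →
    ∃ (N₀ : ℕ) (y₀ : ℝ) (n : ℕ), 1 ≤ N₀ ∧ 1 ≤ n ∧ 0 < y₀ ∧ y₀ < 1 ∧ (tent α)^[n] y₀ = y₀ ∧
      ∀ N : ℕ, 1 ≤ N → N₀ ∣ N → ∃ δ H₀ : ℝ, 0 < δ ∧ ∀ H : ℝ, H₀ ≤ H →
        {x : ℝ | x ∈ Set.Icc (0 : ℝ) 1 ∧ HeightLE α N H x}.Finite ∧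
        0 < {x : ℝ | x ∈ Set.Icc (0 : ℝ) 1 ∧ HeightLE α N H x}.ncard ∧
        δ * ({x : ℝ | x ∈ Set.Icc (0 : ℝ) 1 ∧ HeightLE α N H x}.ncard : ℝ) ≤
          ({x : ℝ | x ∈ Set.Icc (0 : ℝ) 1 ∧ HeightLE α N H x ∧
            ∃ m : ℕ, (tent α)^[m] x = y₀}.ncard : ℝ) :=
  Pool.Agent.H49.PP.final

end Pool.Agent.Results.MP_df7698_an.PositiveProportion
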